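import Pool.Agent.Lib.MP_2d002d_gt.PM.All
import Pool.Agent.Lib.MP_2d002d_gt.H20.Joint

/-!
# MP_2d002d_gt: dimensional Brunn-Minkowski for product measures with an even log-concave density

Q1 in the terms of the problem file. Only the JOINT density `exp (-V)` of `μ` on `ℝⁿ` is assumed
even and log-concave (`V : ℝⁿ → (-∞, +∞]` convex and even), and `μ` is a product measure in the
weakest sense: there are Borel measures `νᵢ` on `ℝ` (finite or not) with
`μ (s₁ × ... × sₙ) = ν₁ s₁ ⋯ νₙ sₙ` for all Borel sets `s₁, ..., sₙ`.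
-/

set_option autoImplicit false

open MeasureTheory Set
open scoped ENNReal Pointwise

namespace Pool.Agent.Results.MP_2d002d_gt.JointDensity

open Pool.Agent.Lib.MP_2d002d_gt.H20

theorem result (n : ℕ) (hn : 1 ≤ n)
    -- `V : ℝⁿ → (-∞, +∞]`, convex and even
    (V : (Fin n → ℝ) → EReal) (hbot : ∀ x, V x ≠ ⊥)
    (hconv : ∀ (x y : Fin n → ℝ) (s : ℝ), 0 < s → s < 1 →
      V (s • x + (1 - s) • y) ≤ (s : EReal) * V x + ((1 - s : ℝ) : EReal) * V y)
    (heven : ∀ x, V (-x) = V x)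
    -- the measure with density `exp (-V)`
    (μ : Measure (Fin n → ℝ))
    (hμ : μ = (volume : Measure (Fin n → ℝ)).withDensity (fun x => EReal.exp (-(V x))))
    -- is a product measure
    (ν : Fin n → Measure ℝ)
    (hν : ∀ s : Fin n → Set ℝ, (∀ i, MeasurableSet (s i)) → μ (univ.pi s) = ∏ i, ν i (s i))
    -- symmetric convex sets
    (A B : Set (Fin n → ℝ)) (hA : Convex ℝ A) (hB : Convex ℝ B) (hA0 : A.Nonempty)
    (hB0 : B.Nonempty) (hAs : -A = A) (hBs : -B = B)
    (t : ℝ) (ht : 0 ≤ t) (ht1 : t ≤ 1) :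
    ENNReal.ofReal t * (μ A) ^ (1 / (n : ℝ)) + ENNReal.ofReal (1 - t) * (μ B) ^ (1 / (n : ℝ)) ≤
      (μ (t • A + (1 - t) • B)) ^ (1 / (n : ℝ)) := by
  by_cases h0 : μ = 0
  · have hp : (0 : ℝ) < 1 / (n : ℝ) := by positivity
    rw [h0]
    simp only [Measure.coe_zero, Pi.zero_apply, ENNReal.zero_rpow_of_pos hp, mul_zero, add_zero,
      le_refl]
  obtain ⟨m, rfl⟩ : ∃ m, n = m + 1 := ⟨n - 1, by omega⟩
  have hμ' : μ = volume.withDensity (dens V) := by rw [hμ, withDensity_dens hbot hconv]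
  have hd0 : dens V 0 ≠ ∞ := by
    unfold dens
    by_cases h : (0 : Fin (m + 1) → ℝ) ∈ interior {x | V x ≠ ⊤}
    · rw [indicator_of_mem h]; exact ENNReal.ofReal_ne_top
    · rw [indicator_of_notMem h]; exact ENNReal.zero_ne_top
  obtain ⟨f, hf, hd⟩ := product_density (dens V) (measurable_dens hbot hconv)
    (logC_dens hbot hconv) (even_dens heven) hd0 ν (by rw [← hμ']; exact hν)
    (by rw [← hμ']; exact h0)
  refine Pool.Agent.Lib.MP_2d002d_gt.PM.all (m + 1) hn f (fun i x => (hf i).nonneg x)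
    (fun i x => (hf i).even x) (fun i x y t h h' => (hf i).lc x y t h h') μ (hμ'.trans hd) A B hA hB
    hA0 hB0 (fun x hx => ?_) (fun x hx => ?_) t ht ht1
  · rw [← hAs] at hx; exact hx
  · rw [← hBs] at hx; exact hx

end Pool.Agent.Results.MP_2d002d_gt.JointDensity
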