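import Pool.Agent.Lib.MP_2d002d_gt.H38.Dens
import Pool.Agent.Lib.MP_2d002d_gt.H38.Static
import Pool.Agent.Lib.MP_2d002d_gt.H1.DensM
import Pool.Agent.Lib.MP_2d002d_gt.H90.Boch
import Pool.Agent.Lib.MP_2d002d_gt.H50.BL
import Pool.Agent.Lib.MP_2d002d_gt.H50.Mix
import Pool.Agent.Lib.MP_2d002d_gt.H74.Knothe
import Pool.Agent.Lib.MP_2d002d_gt.H74.JA
import Pool.Agent.Lib.MP_2d002d_gt.H70.Diff
import Pool.Agent.Lib.MP_2d002d_gt.H67.Sets
import Pool.Agent.Lib.MP_2d002d_gt.H96.ToBM
import Pool.Agent.Lib.MP_2d002d_gt.H96.GammaMix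
import Pool.Agent.Lib.MP_2d002d_gt.H34.ProfLim
import Pool.Agent.Lib.MP_2d002d_gt.H52.Final
import Pool.Agent.Lib.MP_2d002d_gt.H67.Thorin

/-!
# MP_2d002d_gt: the dimensional Brunn-Minkowski inequality for a large class of product measures

The class `Density` of one-dimensional densities contains the indicators of symmetric intervals,
all `exp (-c |x|^p)` (`p > 0`), all `g (x²)` with `g` nonincreasing and log-concave on `[0, ∞)`,
all mixtures of centred Gaussians with log-concave distribution of the logarithm of the inverse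
variance, and all products and pointwise limits of these. For every product of such densities the
inequality (BM) with exponent `1 / n` holds for all nonempty symmetric convex sets in `ℝⁿ`.
-/

set_option autoImplicit false

open MeasureTheory Set Filter Topology
open scoped ENNReal Pointwise

namespace Pool.Agent.Results.MP_2d002d_gt.ProductClass

/-- The class of one-dimensional densities. -/
inductive Density : (ℝ → ℝ) → Prop
  /-- `x ↦ g (x²)` with `g` nonnegative, nonincreasing and log-concave on `[0, ∞)` -/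
  | profile (g : ℝ → ℝ) : (∀ s, 0 ≤ s → 0 ≤ g s) → (∀ s t, 0 ≤ s → s ≤ t → g t ≤ g s) →
      (∀ x y t : ℝ, 0 ≤ x → 0 ≤ y → 0 ≤ t → t ≤ 1 →
        g x ^ t * g y ^ (1 - t) ≤ g (t * x + (1 - t) * y)) → Density (fun x => g (x ^ 2))
  /-- `x ↦ exp (-c |x|^p)` -/
  | power (c p : ℝ) : 0 ≤ c → 0 < p → Density (fun x => Real.exp (-(c * |x| ^ p)))
  /-- `x ↦ (1 + x² / a)^(-c)` -/
  | student (c a : ℝ) : 0 ≤ c → 0 < a → Density (fun x => (1 + x ^ 2 / a) ^ (-c))
  /-- `x ↦ ∫ exp (-e^r x² / 2) w(r) dr` with `w` nonnegative, log-concave and integrable -/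
  | mixture (w : ℝ → ℝ) : (∀ r, 0 ≤ w r) →
      (∀ x y t : ℝ, 0 ≤ t → t ≤ 1 → w x ^ t * w y ^ (1 - t) ≤ w (t * x + (1 - t) * y)) →
      Integrable w → Density (fun x => ∫ r, Real.exp (-(Real.exp r * x ^ 2 / 2)) * w r)
  /-- products -/
  | mul (f g : ℝ → ℝ) : Density f → Density g → Density (fun x => f x * g x)
  /-- pointwise limits -/
  | lim (f : ℕ → ℝ → ℝ) (g : ℝ → ℝ) : (∀ k, Density (f k)) →
      (∀ x, Tendsto (fun k => f k x) atTop (𝓝 (g x))) → Density g

open Pool.Agent.Lib.MP_2d002d_gt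

lemma power_log_concave {c q : ℝ} (hc : 0 ≤ c) (hq : 1 ≤ q) (x y t : ℝ) (hx : 0 ≤ x)
    (hy : 0 ≤ y) (ht : 0 ≤ t) (ht1 : t ≤ 1) :
    Real.exp (-(c * x ^ q)) ^ t * Real.exp (-(c * y ^ q)) ^ (1 - t) ≤
      Real.exp (-(c * (t * x + (1 - t) * y) ^ q)) := by
  rw [← Real.exp_mul, ← Real.exp_mul, ← Real.exp_add]
  apply Real.exp_le_exp.2
  have h := (convexOn_rpow hq).2 (mem_Ici.2 hx) (mem_Ici.2 hy) ht (by linarith : 0 ≤ 1 - t)
    (by ring)
  simp only [smul_eq_mul] at h
  have := mul_le_mul_of_nonneg_left h hc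
  nlinarith

lemma Density.cls {f : ℝ → ℝ} (h : Density f) : Cls f := by
  induction h with
  | profile g h1 h2 h3 => exact Cls.profile g h1 h2 h3
  | power c p hc hp =>
    by_cases h2 : p ≤ 2
    · exact Cls.power c p hc hp h2
    · push Not at h2
      have hq : 1 ≤ p / 2 := by linarith
      have h := Cls.profile (fun s => Real.exp (-(c * s ^ (p / 2)))) (fun s _ => (Real.exp_pos _).le)
        (fun s t hs hst => by
          apply Real.exp_le_exp.2
          have := Real.rpow_le_rpow hs hst (by linarith : 0 ≤ p / 2)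
          nlinarith [mul_le_mul_of_nonneg_left this hc])
        (fun x y t hx hy ht ht1 => power_log_concave hc hq x y t hx hy ht ht1)
      have e : (fun x : ℝ => Real.exp (-(c * |x| ^ p))) =
          fun x => (fun s => Real.exp (-(c * s ^ (p / 2)))) (x ^ 2) := by
        ext x
        simp only
        have : (x ^ 2) ^ (p / 2) = |x| ^ p := by
          rw [← sq_abs, ← Real.rpow_natCast, ← Real.rpow_mul (abs_nonneg x)]
          congr 1
          push_cast
          ring
        rw [this]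
      rw [e]
      exact h
  | student c a hc ha => exact Cls.student c a hc ha
  | mixture w h1 h2 h3 => exact Cls.mixture w h1 h2 h3
  | mul f g _ _ ih1 ih2 => exact Cls.mul f g ih1 ih2
  | lim f g _ hl ih => exact Cls.lim f g ih hl

/-- product densities of the class are radially nonincreasing etc. -/
theorem bm_of_clsJLC (hJ : ClsJLC) (hP : ClsProps) (hT : ToBM) {n : ℕ} (hn : 1 ≤ n)
    (f : Fin n → ℝ → ℝ) (hf : ∀ i, Density (f i))
    (μ : Measure (Fin n → ℝ))
    (hμ : μ = (volume : Measure (Fin n → ℝ)).withDensity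
      (fun x => ENNReal.ofReal (∏ i, f i (x i))))
    (A B : Set (Fin n → ℝ)) (hA : Convex ℝ A) (hB : Convex ℝ B) (hA0 : A.Nonempty)
    (hB0 : B.Nonempty) (hAs : ∀ x ∈ A, -x ∈ A) (hBs : ∀ x ∈ B, -x ∈ B)
    (t : ℝ) (ht : 0 ≤ t) (ht1 : t ≤ 1) :
    ENNReal.ofReal t * (μ A) ^ (1 / (n : ℝ)) + ENNReal.ofReal (1 - t) * (μ B) ^ (1 / (n : ℝ)) ≤
      (μ (t • A + (1 - t) • B)) ^ (1 / (n : ℝ)) := by
  subst hμ
  have hC : ∀ i, Cls (f i) := fun i => (hf i).cls
  refine hT n (fun x => ∏ i, f i (x i)) hn ?_ ?_ ?_ (hJ n f hC) A B hA hB hA0 hB0 hAs hBs t ht ht1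
  · intro x
    exact Finset.prod_nonneg fun i _ => (hP _ (hC i)).1 _
  · refine (Finset.measurable_prod _ fun i _ => ?_).aemeasurable
    exact (hP _ (hC i)).2.1.comp (measurable_pi_apply i)
  · intro x s hs hs1
    apply Finset.prod_le_prod
    · intro i _
      exact (hP _ (hC i)).1 _
    · intro i _
      apply (hP _ (hC i)).2.2.2
      rw [Pi.smul_apply, smul_eq_mul, abs_mul, abs_of_nonneg hs]
      exact mul_le_of_le_one_left (abs_nonneg _) hs1

/-- joint log-concavity for all product densities of the class -/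
theorem clsJLC : ClsJLC := by
  have hD : DensM := H1.densM H38.dens
  have hBL : BL := H50.bl hD H90.ibp_dv H90.boch
  have hS : Static := H38.static (H1.densMEven hD) H90.ibp_dv H90.boch hBL
    (H74.ja (H74.slice H74.knothe))
  exact H52.clsJLC (H50.mix (H67.sets (H70.diff hS))) H34.profLim H67.thorin H96.gammaMix

/-- The dimensional Brunn-Minkowski inequality (BM), with exponent `1 / n`, for every product
measure on `ℝⁿ` whose coordinate densities belong to the class `Density`, and for all nonempty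
symmetric convex sets. -/
theorem result (n : ℕ) (hn : 1 ≤ n) (f : Fin n → ℝ → ℝ) (hf : ∀ i, Density (f i))
    (μ : Measure (Fin n → ℝ))
    (hμ : μ = (volume : Measure (Fin n → ℝ)).withDensity
      (fun x => ENNReal.ofReal (∏ i, f i (x i))))
    (A B : Set (Fin n → ℝ)) (hA : Convex ℝ A) (hB : Convex ℝ B) (hA0 : A.Nonempty)
    (hB0 : B.Nonempty) (hAs : ∀ x ∈ A, -x ∈ A) (hBs : ∀ x ∈ B, -x ∈ B)
    (t : ℝ) (ht : 0 ≤ t) (ht1 : t ≤ 1) :
    ENNReal.ofReal t * (μ A) ^ (1 / (n : ℝ)) + ENNReal.ofReal (1 - t) * (μ B) ^ (1 / (n : ℝ)) ≤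
      (μ (t • A + (1 - t) • B)) ^ (1 / (n : ℝ)) :=
  bm_of_clsJLC clsJLC H52.clsProps H96.toBM hn f hf μ hμ A B hA hB hA0 hB0 hAs hBs t ht ht1

end Pool.Agent.Results.MP_2d002d_gt.ProductClass
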